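import Pool.Agent.Lib.MP_6bc78b_nt.MS.QZ.Iface

/-! Project MS, Part QZ, module TLL (helper84): the tail of the exponential. -/

set_option autoImplicit false

open Complex ArithmeticFunction

namespace Pool.Agent.Lib.MP_6bc78b_nt.MS.QZ.H84

open Pool.Agent.Lib.MP_6bc78b_nt.MS.QZ

/-! ## The local inequality -/

theorem loc_aux (k : ℕ) :
    (Real.exp 1 ^ k * (Real.exp 1 + k + 1)) ^ 2 ≤ 14 ^ (k + 1) * ((k + 1).factorial : ℝ) := by
  have hE := Real.exp_one_lt_d9
  have hE0 : (0 : ℝ) < Real.exp 1 := Real.exp_pos 1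
  induction k with
  | zero =>
    simp only [pow_zero, one_mul, Nat.cast_zero, add_zero, zero_add, pow_one, Nat.factorial_one,
      Nat.cast_one, mul_one]
    nlinarith
  | succ k ih =>
    have hk : (0 : ℝ) ≤ (k : ℝ) := Nat.cast_nonneg k
    set E := Real.exp 1 with hEdef
    have h1 : E ^ 2 ≤ 7.4 := by nlinarith
    have hE2 : (2.7 : ℝ) < E := by
      have := Real.exp_one_gt_d9
      linarith
    have h2 : (E + (k : ℝ) + 2) ≤ 1.3 * (E + k + 1) := by nlinarith
    have h3 : (E + (k : ℝ) + 2) ^ 2 ≤ (1.3 * (E + k + 1)) ^ 2 :=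
      pow_le_pow_left₀ (by positivity) h2 2
    have h4 : E ^ 2 * (E + (k : ℝ) + 2) ^ 2 ≤ 14 * ((k : ℝ) + 2) * (E + k + 1) ^ 2 := by
      have h5 : E ^ 2 * (E + (k : ℝ) + 2) ^ 2 ≤ 7.4 * (1.3 * (E + k + 1)) ^ 2 :=
        mul_le_mul h1 h3 (by positivity) (by norm_num)
      have h6 : 0 ≤ (E + (k : ℝ) + 1) ^ 2 := by positivity
      nlinarith [mul_nonneg hk h6]
    have h7 : (E ^ (k + 1) * (E + ((k + 1 : ℕ) : ℝ) + 1)) ^ 2 =
        (E ^ k) ^ 2 * (E ^ 2 * (E + (k : ℝ) + 2) ^ 2) := by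
      push_cast
      ring
    rw [h7]
    calc (E ^ k) ^ 2 * (E ^ 2 * (E + (k : ℝ) + 2) ^ 2)
        ≤ (E ^ k) ^ 2 * (14 * ((k : ℝ) + 2) * (E + k + 1) ^ 2) :=
          mul_le_mul_of_nonneg_left h4 (by positivity)
      _ = 14 * ((k : ℝ) + 2) * (E ^ k * (E + k + 1)) ^ 2 := by ring
      _ ≤ 14 * ((k : ℝ) + 2) * (14 ^ (k + 1) * ((k + 1).factorial : ℝ)) :=
          mul_le_mul_of_nonneg_left ih (by positivity)
      _ = 14 ^ (k + 1 + 1) * ((k + 1 + 1).factorial : ℝ) := by
          rw [Nat.factorial_succ (k + 1)]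
          push_cast
          ring

theorem loc (k : ℕ) :
    (Real.exp 1 ^ (k + 1) / ((k + 1).factorial : ℝ) + Real.exp 1 ^ k / (k.factorial : ℝ)) ^ 2 ≤
      14 ^ (k + 1) * (1 / ((k + 1).factorial : ℝ)) := by
  have h := loc_aux k
  have hf : (0 : ℝ) < (k.factorial : ℝ) := by positivity
  have hk : (0 : ℝ) < ((k : ℝ) + 1) := by positivity
  have h1 : Real.exp 1 ^ (k + 1) / ((k + 1).factorial : ℝ) + Real.exp 1 ^ k / (k.factorial : ℝ) =
      (Real.exp 1 ^ k * (Real.exp 1 + k + 1)) / ((k + 1).factorial : ℝ) := by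
    rw [Nat.factorial_succ]
    push_cast
    field_simp
    ring
  have hf1 : (0 : ℝ) < ((k + 1).factorial : ℝ) := by positivity
  rw [h1, div_pow, div_le_iff₀ (by positivity)]
  calc (Real.exp 1 ^ k * (Real.exp 1 + k + 1)) ^ 2 ≤ 14 ^ (k + 1) * ((k + 1).factorial : ℝ) := h
    _ = 14 ^ (k + 1) * (1 / ((k + 1).factorial : ℝ)) * ((k + 1).factorial : ℝ) ^ 2 := by
        field_simp

/-! ## Multiplicative functions -/

theorem nu_mul {a b : ℕ} (h : a.Coprime b) : nu (a * b) = nu a * nu b := by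
  unfold nu
  rw [h.primeFactors_mul, Finset.prod_union h.disjoint_primeFactors]
  congr 1
  · apply Finset.prod_congr rfl
    intro p hp
    have hb : b.factorization p = 0 := by
      rw [← Finsupp.notMem_support_iff, Nat.support_factorization]
      exact fun hb => (Finset.disjoint_left.1 h.disjoint_primeFactors) hp hb
    rw [Nat.factorization_mul_of_coprime h, Finsupp.add_apply, hb, add_zero]
  · apply Finset.prod_congr rfl
    intro p hp
    have ha : a.factorization p = 0 := by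
      rw [← Finsupp.notMem_support_iff, Nat.support_factorization]
      exact fun ha => (Finset.disjoint_left.1 h.disjoint_primeFactors) ha hp
    rw [Nat.factorization_mul_of_coprime h, Finsupp.add_apply, ha, zero_add]

theorem nu_nonneg (n : ℕ) : 0 ≤ nu n := by
  unfold nu
  exact Finset.prod_nonneg fun p _ => by positivity

theorem nu_prime_pow {p k : ℕ} (hp : p.Prime) : nu (p ^ k) = 1 / (k.factorial : ℝ) := by
  by_cases hk : k = 0
  · subst hk
    simp [nu]
  · unfold nu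
    rw [Nat.primeFactors_prime_pow hk hp, Finset.prod_singleton, hp.factorization_pow]
    simp

/-- `c^Ω(n) ν(n)`. -/
noncomputable def gf (c : ℝ) : ArithmeticFunction ℝ :=
  ⟨fun n => if n = 0 then 0 else c ^ cardFactors n * nu n, by simp⟩

theorem gf_apply (c : ℝ) {n : ℕ} (hn : n ≠ 0) : gf c n = c ^ cardFactors n * nu n := by
  change (if n = 0 then 0 else c ^ cardFactors n * nu n) = _
  rw [if_neg hn]

theorem gf_mult (c : ℝ) : (gf c).IsMultiplicative := by
  rw [IsMultiplicative.iff_ne_zero]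
  refine ⟨?_, ?_⟩
  · rw [gf_apply c one_ne_zero]
    simp [nu]
  · intro m n hm hn h
    rw [gf_apply c (mul_ne_zero hm hn), gf_apply c hm, gf_apply c hn, nu_mul h,
      cardFactors_mul hm hn, pow_add]
    ring

/-- `μ(n)^2`. -/
noncomputable def m2 : ArithmeticFunction ℝ := ⟨fun n => ((moebius n : ℤ) : ℝ) ^ 2, by simp⟩

theorem m2_apply (n : ℕ) : m2 n = ((moebius n : ℤ) : ℝ) ^ 2 := rfl

theorem m2_mult : m2.IsMultiplicative := by
  rw [IsMultiplicative.iff_ne_zero]
  refine ⟨by simp [m2_apply], ?_⟩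
  intro m n _ _ h
  rw [m2_apply, m2_apply, m2_apply, isMultiplicative_moebius.map_mul_of_coprime h]
  push_cast
  ring

noncomputable def maj : ArithmeticFunction ℝ := m2 * gf (Real.exp 1)

theorem maj_mult : maj.IsMultiplicative := m2_mult.mul (gf_mult _)

theorem maj_nonneg (n : ℕ) : 0 ≤ maj n := by
  unfold maj
  rw [mul_apply]
  apply Finset.sum_nonneg
  intro x _
  apply mul_nonneg
  · rw [m2_apply]
    positivity
  · change 0 ≤ (if x.2 = 0 then 0 else Real.exp 1 ^ cardFactors x.2 * nu x.2)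
    have := nu_nonneg x.2
    split_ifs <;> positivity

theorem maj_prime_pow {p : ℕ} (hp : p.Prime) (k : ℕ) :
    maj (p ^ (k + 1)) =
      Real.exp 1 ^ (k + 1) / ((k + 1).factorial : ℝ) + Real.exp 1 ^ k / (k.factorial : ℝ) := by
  unfold maj
  rw [mul_apply]
  have h1 : ∑ x ∈ (p ^ (k + 1)).divisorsAntidiagonal, m2 x.1 * gf (Real.exp 1) x.2
      = ∑ d ∈ (p ^ (k + 1)).divisors, m2 d * gf (Real.exp 1) (p ^ (k + 1) / d) :=
    Nat.sum_divisorsAntidiagonal (f := fun a b => m2 a * gf (Real.exp 1) b)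
  rw [h1, Nat.sum_divisors_prime_pow hp]
  rw [Finset.sum_range_succ' , Finset.sum_range_succ']
  have hpp : ∀ j, p ^ j ≠ 0 := fun j => pow_ne_zero j hp.ne_zero
  have h2 : ∑ i ∈ Finset.range k, m2 (p ^ (i + 1 + 1)) *
      gf (Real.exp 1) (p ^ (k + 1) / p ^ (i + 1 + 1)) = 0 := by
    apply Finset.sum_eq_zero
    intro i _
    have : moebius (p ^ (i + 1 + 1)) = 0 := by
      rw [moebius_apply_prime_pow hp (by omega), if_neg (by omega)]
    rw [m2_apply, this]
    simp
  rw [h2, zero_add]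
  have h3 : m2 (p ^ (0 + 1)) = 1 := by
    rw [m2_apply, zero_add, pow_one, moebius_apply_prime hp]
    norm_num
  have h4 : m2 (p ^ 0) = 1 := by
    rw [m2_apply, pow_zero]
    simp
  have h5 : p ^ (k + 1) / p ^ (0 + 1) = p ^ k := by
    rw [zero_add, pow_one, pow_succ, Nat.mul_div_cancel _ hp.pos]
  have h6 : p ^ (k + 1) / p ^ 0 = p ^ (k + 1) := by simp
  rw [h3, h4, h5, h6, gf_apply _ (hpp _), gf_apply _ (hpp _), nu_prime_pow hp, nu_prime_pow hp,
    cardFactors_apply_prime_pow hp, cardFactors_apply_prime_pow hp]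
  ring

theorem maj_sq (n : ℕ) (hn : n ≠ 0) : maj n ^ 2 ≤ gf 14 n := by
  induction n using Nat.recOnPosPrimePosCoprime with
  | prime_pow p k hp hk =>
    obtain ⟨k, rfl⟩ := Nat.exists_eq_succ_of_ne_zero (Nat.pos_iff_ne_zero.1 hk)
    rw [Nat.succ_eq_add_one, maj_prime_pow hp, gf_apply _ (pow_ne_zero _ hp.ne_zero),
      nu_prime_pow hp, cardFactors_apply_prime_pow hp]
    exact loc k
  | zero => exact absurd rfl hn
  | one =>
    rw [maj_mult.map_one, (gf_mult 14).map_one]
    norm_num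
  | coprime a b ha hb hab iha ihb =>
    rw [maj_mult.map_mul_of_coprime hab, (gf_mult 14).map_mul_of_coprime hab, mul_pow]
    exact mul_le_mul (iha (by omega)) (ihb (by omega)) (by positivity)
      (le_trans (by positivity) (iha (by omega)))

/-! ## The pointwise bound -/

theorem norm_muz_le (S : Finset ℕ) (z : ℂ) (hz : 0 ≤ z.re) (d : ℕ) (hd : d ≠ 0) :
    ‖muz S z d‖ ≤ m2 d ∧ (¬ d.primeFactors ⊆ S → muz S z d = 0) := by
  have h0 : muz S z d = if d.primeFactors ⊆ S then ((moebius d : ℤ) : ℂ) * (d : ℂ) ^ (-z)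
    else 0 := rfl
  rw [h0]
  refine ⟨?_, fun h => if_neg h⟩
  split_ifs with h
  · rw [norm_mul]
    have h1 : ‖(d : ℂ) ^ (-z)‖ ≤ 1 := by
      rw [norm_natCast_cpow_of_pos (Nat.pos_of_ne_zero hd)]
      have hd1 : (1 : ℝ) ≤ (d : ℝ) := by exact_mod_cast Nat.one_le_iff_ne_zero.2 hd
      apply Real.rpow_le_one_of_one_le_of_nonpos hd1
      simp only [neg_re]
      linarith
    have h2 : ‖((moebius d : ℤ) : ℂ)‖ ≤ m2 d := by
      rw [m2_apply, Complex.norm_intCast]
      rcases moebius_eq_or d with h | h | h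
      · rw [h]; norm_num
      · rw [h]; norm_num
      · rw [h]; norm_num
    calc ‖((moebius d : ℤ) : ℂ)‖ * ‖(d : ℂ) ^ (-z)‖ ≤ m2 d * 1 :=
          mul_le_mul h2 h1 (norm_nonneg _) (le_trans (norm_nonneg _) h2)
      _ = m2 d := mul_one _
  · rw [norm_zero, m2_apply]
    positivity

theorem norm_tail_le (hV : VnuStatement) (S : Finset ℕ) (α : ℝ) (K : ℕ) (h0 : 0 ≤ α) (h1 : α ≤ 1)
    (e : ℕ) (he : e ≠ 0) :
    ‖toC (ae α S - ac α S K) e‖ ≤ Real.exp (-(K : ℝ)) * gf (Real.exp 1) e ∧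
      (¬ e.primeFactors ⊆ S → toC (ae α S - ac α S K) e = 0) := by
  have hsub : (ae α S - ac α S K) e = ae α S e - ac α S K e := by
    rw [sub_eq_add_neg, ArithmeticFunction.add_apply, ArithmeticFunction.neg_apply,
      ← sub_eq_add_neg]
  have hae : ae α S e =
    if e ≠ 0 ∧ e.primeFactors ⊆ S then α ^ (cardFactors e) * nu e else 0 := rfl
  have hval : (ae α S - ac α S K) e = if cardFactors e ≤ K then 0 else ae α S e := by
    rw [hsub, hV.2]
    split_ifs <;> simp
  have hg : 0 ≤ gf (Real.exp 1) e := by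
    rw [gf_apply _ he]
    have := nu_nonneg e
    positivity
  refine ⟨?_, ?_⟩
  · rw [toC_apply, hval, Complex.norm_real, Real.norm_eq_abs]
    by_cases hK : cardFactors e ≤ K
    · rw [if_pos hK, abs_zero]
      positivity
    · rw [if_neg hK, hae]
      by_cases hS : e.primeFactors ⊆ S
      · rw [if_pos ⟨he, hS⟩, gf_apply _ he]
        have hnu := nu_nonneg e
        have h2 : 0 ≤ α ^ cardFactors e * nu e := by positivity
        rw [abs_of_nonneg h2]
        have h3 : α ^ cardFactors e ≤ 1 := pow_le_one₀ h0 h1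
        have h4 : (1 : ℝ) ≤ Real.exp (-(K : ℝ)) * Real.exp 1 ^ cardFactors e := by
          rw [← Real.exp_nat_mul, ← Real.exp_add]
          apply Real.one_le_exp
          have : (K : ℝ) ≤ (cardFactors e : ℝ) := by exact_mod_cast (le_of_lt (not_le.1 hK))
          linarith
        calc α ^ cardFactors e * nu e ≤ 1 * nu e := mul_le_mul_of_nonneg_right h3 hnu
          _ ≤ (Real.exp (-(K : ℝ)) * Real.exp 1 ^ cardFactors e) * nu e :=
              mul_le_mul_of_nonneg_right h4 hnu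
          _ = Real.exp (-(K : ℝ)) * (Real.exp 1 ^ cardFactors e * nu e) := by ring
      · rw [if_neg (fun h => hS h.2), abs_zero]
        positivity
  · intro hS
    have h5 : ae α S e = 0 := by rw [hae, if_neg (fun h => hS h.2)]
    rw [toC_apply, hval, h5]
    simp

theorem norm_prod_le (hV : VnuStatement) (S : Finset ℕ) (α : ℝ) (z : ℂ) (K : ℕ) (h0 : 0 ≤ α)
    (h1 : α ≤ 1) (hz : 0 ≤ z.re) (n : ℕ) (hn : n ≠ 0) :
    ‖(muz S z * toC (ae α S - ac α S K)) n‖ ≤ Real.exp (-(K : ℝ)) * maj n ∧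
      (¬ n.primeFactors ⊆ S → (muz S z * toC (ae α S - ac α S K)) n = 0) := by
  refine ⟨?_, ?_⟩
  · rw [mul_apply]
    unfold maj
    rw [mul_apply, Finset.mul_sum]
    refine le_trans (norm_sum_le _ _) (Finset.sum_le_sum ?_)
    intro x hx
    obtain ⟨hxn, _⟩ := Nat.mem_divisorsAntidiagonal.1 hx
    have hx1 : x.1 ≠ 0 := by
      rintro h
      rw [h, zero_mul] at hxn
      exact hn hxn.symm
    have hx2 : x.2 ≠ 0 := by
      rintro h
      rw [h, mul_zero] at hxn
      exact hn hxn.symm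
    rw [norm_mul]
    have a1 := (norm_muz_le S z hz x.1 hx1).1
    have a2 := (norm_tail_le hV S α K h0 h1 x.2 hx2).1
    calc ‖muz S z x.1‖ * ‖toC (ae α S - ac α S K) x.2‖
        ≤ m2 x.1 * (Real.exp (-(K : ℝ)) * gf (Real.exp 1) x.2) :=
          mul_le_mul a1 a2 (norm_nonneg _) (le_trans (norm_nonneg _) a1)
      _ = Real.exp (-(K : ℝ)) * (m2 x.1 * gf (Real.exp 1) x.2) := by ring
  · intro hS
    rw [mul_apply]
    apply Finset.sum_eq_zero
    intro x hx
    obtain ⟨hxn, _⟩ := Nat.mem_divisorsAntidiagonal.1 hx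
    have hx1 : x.1 ≠ 0 := by
      rintro h
      rw [h, zero_mul] at hxn
      exact hn hxn.symm
    have hx2 : x.2 ≠ 0 := by
      rintro h
      rw [h, mul_zero] at hxn
      exact hn hxn.symm
    by_cases hS1 : x.1.primeFactors ⊆ S
    · have hS2 : ¬ x.2.primeFactors ⊆ S := by
        intro hS2
        apply hS
        rw [← hxn, Nat.primeFactors_mul hx1 hx2]
        exact Finset.union_subset hS1 hS2
      rw [(norm_tail_le hV S α K h0 h1 x.2 hx2).2 hS2, mul_zero]
    · rw [(norm_muz_le S z hz x.1 hx1).2 hS1, zero_mul]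

/-- TLL. -/
theorem tll (hV : VnuStatement) (hP : PsmStatement) : TllStatement := by
  intro S α z K hS h0 h1 hz
  have hsum := (hP.2 S 14 hS (by norm_num)).mul_left (Real.exp (-2 * (K : ℝ)))
  have hval : Real.exp (-2 * (K : ℝ)) * Real.exp (14 * rs S) = Real.exp (14 * rs S - 2 * K) := by
    rw [← Real.exp_add]
    congr 1
    ring
  rw [hval] at hsum
  have hae : ∀ n : ℕ, ae 14 S n =
    if n ≠ 0 ∧ n.primeFactors ⊆ S then (14 : ℝ) ^ (cardFactors n) * nu n else 0 := fun n => rfl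
  have hnn : ∀ n : ℕ, 0 ≤ Real.exp (-2 * (K : ℝ)) * (ae 14 S n / (n : ℝ)) := by
    intro n
    rw [hae]
    have := nu_nonneg n
    split_ifs <;> positivity
  rw [← hsum.tsum_eq, ENNReal.ofReal_tsum_of_nonneg hnn hsum.summable]
  unfold NN
  apply ENNReal.tsum_le_tsum
  intro n
  apply ENNReal.ofReal_le_ofReal
  by_cases hn : n = 0
  · subst hn
    simp
  · obtain ⟨a1, a2⟩ := norm_prod_le hV S α z K h0 h1 hz n hn
    by_cases hnS : n.primeFactors ⊆ S
    · rw [← mul_div_assoc]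
      apply div_le_div_of_nonneg_right _ (Nat.cast_nonneg n)
      rw [hae, if_pos ⟨hn, hnS⟩]
      have b1 := maj_sq n hn
      rw [gf_apply _ hn] at b1
      calc ‖(muz S z * toC (ae α S - ac α S K)) n‖ ^ 2
          ≤ (Real.exp (-(K : ℝ)) * maj n) ^ 2 := pow_le_pow_left₀ (norm_nonneg _) a1 2
        _ = Real.exp (-2 * (K : ℝ)) * maj n ^ 2 := by
            rw [mul_pow, ← Real.exp_nat_mul]
            congr 2
            push_cast
            ring
        _ ≤ Real.exp (-2 * (K : ℝ)) * (14 ^ cardFactors n * nu n) :=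
            mul_le_mul_of_nonneg_left b1 (Real.exp_pos _).le
    · rw [a2 hnS, norm_zero]
      have := hnn n
      simpa using this

end Pool.Agent.Lib.MP_6bc78b_nt.MS.QZ.H84
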